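import Pool.Agent.TH299.GO.C2

/-!
# Lower bounds for the exponent `α` of the smallest gaps from one-sided means of the Mertens function

Let `α = liminf log(γ_{n+1} - γ_n) / log n`, with `log 0 = -∞`.

(0) If `α > -∞` then all but finitely many zeros in the upper half plane are simple and lie on the
critical line: a lower bound for `α` is at least as deep as this.

(1) Let `s = 1` or `s = -1` and `0 ≤ κ < 1`. If the logarithmic mean of `max(s M(u), 0) / √u` over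
`[1, x]` is `O((log x)^κ)` (for instance if `s M(x) ≤ C √x (log x)^κ` for all large `x`), then all
the nontrivial zeros are simple and on the line, and `α ≥ -1/(1-κ)`. If this holds for every
`κ > 0` then `α ≥ -1`. So if `α < -1` then neither of the logarithmic means of the positive and of
the negative part of `M(u) / √u` is `O((log x)^κ)` for every `κ > 0`; in particular both are unbounded.

(2) Let moreover `0 ≤ θ ≤ 1/2`. If the integral of `max(s (M(e^δ u) - M(u)), 0) / u^(3/2)` over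
`[1, x]` is at most `C δ^θ (1 + log x)^(1+κ)` for all `x ≥ 1` and `0 < δ ≤ 1/2`, then
`α ≥ -(1-θ)/(1-κ)`, and `α ≥ -(1-θ)` if this holds for every `κ > 0`. The expected size of
`M(u + h) - M(u)` is `√h`, which corresponds to `θ = 1/2` and gives `α ≥ -1/2`.

Idea of the proof. By Landau's theorem on Laplace transforms of nonnegative functions a bound for
one of the two parts gives the same bound for the mean of the absolute value, because `1/ζ(σ)` is
bounded for `1/2 ≤ σ ≤ 1`. So `ζ` has no zeros with real part larger than `1/2`, and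
`|ζ(1/2 + η + it)| ≥ c η^(1+κ) / (1 + |t|)`. If two zeros on the line are closer than `η`, then
`|ζ(1/2 + η + it)| ≤ C_ε t^ε η²` near them, by Schwarz's lemma and since the Riemann Hypothesis
implies the Lindelöf hypothesis. For (2) one takes `δ = 1 / (2 (1 + |t|))`.
-/

open Filter MeasureTheory

namespace Pool.Agent.Results.MP_af3d17_nt.OneSidedMertens

/-- multiplicity of `s` as a zero of the Riemann zeta function (order of vanishing at `s`) -/
noncomputable def zmult (s : ℂ) : ℕ := analyticOrderNatAt riemannZeta s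

/-- the number of nontrivial zeros of `ζ` with ordinate in `(0, t]`, with multiplicity -/
noncomputable def NZ (t : ℝ) : ℕ :=
  ∑ᶠ s ∈ {s : ℂ | riemannZeta s = 0 ∧ 0 < s.re ∧ s.re < 1 ∧ 0 < s.im ∧ s.im ≤ t}, zmult s

/-- for `n ≥ 1`: the `n`-th positive ordinate `γ_n` of a nontrivial zero of `ζ`, the ordinates
being listed in nondecreasing order and repeated according to multiplicity -/
noncomputable def ord (n : ℕ) : ℝ := sInf {t : ℝ | n ≤ NZ t}

/-- `α = liminf log(γ_{n+1} - γ_n) / log n`, with `log 0 = -∞` -/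
noncomputable def alpha : EReal :=
  liminf (fun n : ℕ => if ord (n + 1) - ord n = 0 then (⊥ : EReal)
    else ((Real.log (ord (n + 1) - ord n) / Real.log n : ℝ) : EReal)) atTop

/-- the Mertens function `M(x) = ∑_{n ≤ x} μ(n)` -/
noncomputable def M (x : ℝ) : ℝ := ∑ n ∈ Finset.Icc 1 ⌊x⌋₊, ((ArithmeticFunction.moebius n : ℤ) : ℝ)

/-- `∫_1^x max(s M(u), 0) u^(-3/2) du = O((log x)^(1+κ))` -/
def OneSided (s κ : ℝ) : Prop := ∃ C : ℝ, ∀ᶠ x : ℝ in atTop,
  ∫ u in (1:ℝ)..x, max (s * M u) 0 / u ^ (3 / 2 : ℝ) ≤ C * Real.log x ^ (1 + κ)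

/-- `∫_1^x max(s (M(e^δ u) - M(u)), 0) u^(-3/2) du ≤ C δ^θ (1 + log x)^(1+κ)` for all `x ≥ 1` and
`0 < δ ≤ 1/2` -/
def OneSidedIncr (s θ κ : ℝ) : Prop := ∃ C : ℝ, ∀ δ : ℝ, 0 < δ → δ ≤ 1 / 2 → ∀ x : ℝ, 1 ≤ x →
  ∫ u in (1:ℝ)..x, max (s * (M (Real.exp δ * u) - M u)) 0 / u ^ (3 / 2 : ℝ) ≤
    C * δ ^ θ * (1 + Real.log x) ^ (1 + κ)

/-- all the nontrivial zeros of `ζ` are on the critical line and simple -/
def AllSimple : Prop :=
  ∀ ρ : ℂ, riemannZeta ρ = 0 → 0 < ρ.re → ρ.re < 1 → ρ.re = 1 / 2 ∧ deriv riemannZeta ρ ≠ 0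

/-- **Main theorem.** -/
theorem result :
    -- (0) what a lower bound for `α` implies
    (alpha ≠ ⊥ → {ρ : ℂ | riemannZeta ρ = 0 ∧ 0 < ρ.re ∧ ρ.re < 1 ∧ 0 < ρ.im ∧
      ¬ (ρ.re = 1 / 2 ∧ deriv riemannZeta ρ ≠ 0)}.Finite) ∧
    -- (1) one-sided means of the Mertens function
    (∀ s κ : ℝ, s = 1 ∨ s = -1 → 0 ≤ κ → κ < 1 → OneSided s κ →
      AllSimple ∧ ((-(1 / (1 - κ)) : ℝ) : EReal) ≤ alpha) ∧
    (∀ s : ℝ, s = 1 ∨ s = -1 → (∀ κ : ℝ, 0 < κ → OneSided s κ) → (-1 : EReal) ≤ alpha) ∧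
    -- a pointwise one-sided bound suffices
    (∀ s κ : ℝ, 0 ≤ κ → (∃ C : ℝ, ∀ᶠ x : ℝ in atTop, s * M x ≤ C * (Real.sqrt x * Real.log x ^ κ)) →
      OneSided s κ) ∧
    -- (2) one-sided means of the increments
    (∀ s θ κ : ℝ, s = 1 ∨ s = -1 → 0 ≤ θ → θ ≤ 1 / 2 → 0 ≤ κ → κ < 1 → OneSidedIncr s θ κ →
      AllSimple ∧ ((-((1 - θ) / (1 - κ)) : ℝ) : EReal) ≤ alpha) ∧
    (∀ s θ : ℝ, s = 1 ∨ s = -1 → 0 ≤ θ → θ ≤ 1 / 2 → (∀ κ : ℝ, 0 < κ → OneSidedIncr s θ κ) →
      ((-(1 - θ) : ℝ) : EReal) ≤ alpha) :=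
  ⟨Pool.Agent.TH299.GO.finite_exc,
    fun _ _ hs hκ hκ1 h => Pool.Agent.TH299.GO.main_alpha hs hκ hκ1 h,
    fun _ hs h => Pool.Agent.TH299.GO.main_zero hs h,
    fun _ _ hκ h => Pool.Agent.TH299.GO.hyp_of_pt hκ h,
    fun _ _ _ hs hθ hθ1 hκ hκ1 h => Pool.Agent.TH299.GO.main_alpha2 hs hθ (by linarith) hκ hκ1 h,
    fun _ _ hs hθ hθ1 h => Pool.Agent.TH299.GO.main_zero2 hs hθ (by linarith) h⟩

end Pool.Agent.Results.MP_af3d17_nt.OneSidedMertens
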